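import Pool.Agent.Q181.WI.Pack

/-! MP_b1931f_gt, Q1: there is a weakly integrable 3-submanifold of Euclidean 6-space (so
`k = 3 < n = 6 ≤ 2k`) that is not a complete intersection: the graph `{(x, -x/|x|²) : x ≠ 0}` of
the negative of the inversion. -/

set_option autoImplicit false

namespace Pool.Agent.Results.MP_b1931f_gt.WeaklyIntegrableNotCI

open Q181.WI

/-- With `n = k + m`: there are `k < n ≤ 2k` and a weakly integrable `k`-submanifold of `E^n` that
is not a complete intersection. -/
theorem result : ∃ k m : ℕ, 0 < m ∧ m ≤ k ∧ ∃ L : Set (E (k + m)),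
    IsImmersedOpen (k + m) k L ∧ WeaklyIntegrable k m L ∧ ¬ CompleteIntersection k m L :=
  ⟨3, 3, by norm_num, le_rfl, exL, exL_immersed, exL_wi, exL_not_ci⟩

end Pool.Agent.Results.MP_b1931f_gt.WeaklyIntegrableNotCI
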